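import Pool.Agent.W8.LS.Stm

/-!
LS-SiteSmooth: the affine maps `site`, `siteInv` are smooth, symplectic and inverse to each other.
-/

open scoped Topology ContDiff
open Complex (I)

namespace Pool.Agent.W391.LS.SiteSmooth

open Pool.Agent.W8.LS

/-- the linear part -/
noncomputable def lin (κ : ℝ) : V →ₗ[ℝ] V where
  toFun p := (p.1 + κ * p.2.2.1.im, p.2.1, p.2.2.1, p.2.2.2 + ((κ * p.2.1 : ℝ) : ℂ) * I)
  map_add' p q := by
    refine Prod.ext ?_ (Prod.ext ?_ (Prod.ext ?_ ?_))
    · simp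
      ring
    · simp
    · simp
    · apply Complex.ext <;> simp
      ring
  map_smul' a p := by
    refine Prod.ext ?_ (Prod.ext ?_ (Prod.ext ?_ ?_))
    · simp
      ring
    · simp
    · simp
    · apply Complex.ext <;> simp
      ring

theorem lin_apply (κ : ℝ) (p : V) : lin κ p =
    (p.1 + κ * p.2.2.1.im, p.2.1, p.2.2.1, p.2.2.2 + ((κ * p.2.1 : ℝ) : ℂ) * I) := rfl

/-- the linear part, continuous -/
noncomputable def linC (κ : ℝ) : V →L[ℝ] V := LinearMap.toContinuousLinearMap (lin κ)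

theorem linC_apply (κ : ℝ) (p : V) : linC κ p =
    (p.1 + κ * p.2.2.1.im, p.2.1, p.2.2.1, p.2.2.2 + ((κ * p.2.1 : ℝ) : ℂ) * I) := rfl

theorem om_lin (κ : ℝ) (p q : V) : om (linC κ p) (linC κ q) = om p q := by
  rw [linC_apply, linC_apply]
  unfold om
  simp
  ring

theorem affine (f : V → V) (κ : ℝ) (b : V) (h : ∀ x, f x = linC κ x + b) :
    ContDiff ℝ ∞ f ∧ ∀ x, SymAt f x := by
  have hf : f = fun x => linC κ x + b := funext h
  constructor
  · rw [hf]
    exact (linC κ).contDiff.add contDiff_const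
  · intro x p q
    have h1 : fderiv ℝ f x = linC κ := by
      rw [hf]
      exact ((linC κ).hasFDerivAt.add_const b).fderiv
    rw [h1]
    exact om_lin κ p q

theorem SiteSmooth_proof : SiteSmooth := by
  intro k l m r
  refine ⟨affine _ (k : ℝ) (0, 0, - (((k : ℂ) + l * I) / 2),
      - ((m : ℂ) / 2) + ((((√2 * m + 2 * r) / 2 : ℝ)) : ℂ) * I) ?_,
    affine _ (-(k : ℝ)) (-(k : ℝ) * (l / 2), 0, ((k : ℂ) + l * I) / 2,
      (m : ℂ) / 2 - ((((√2 * m + 2 * r) / 2 : ℝ)) : ℂ) * I) ?_, ?_, ?_⟩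
  · intro x
    rw [linC_apply]
    unfold site
    refine Prod.ext ?_ (Prod.ext ?_ (Prod.ext ?_ ?_))
    · simp
    · simp
    · simp
      ring
    · simp
      ring
  · intro x
    rw [linC_apply]
    unfold siteInv
    refine Prod.ext ?_ (Prod.ext ?_ (Prod.ext ?_ ?_))
    · simp
      ring
    · simp
    · simp
    · simp
      ring
  · intro x
    unfold site siteInv
    refine Prod.ext ?_ (Prod.ext ?_ (Prod.ext ?_ ?_))
    · simp
    · simp
    · simp
    · simp
      ring
  · intro x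
    unfold site siteInv
    refine Prod.ext ?_ (Prod.ext ?_ (Prod.ext ?_ ?_))
    · simp
    · simp
    · simp
    · simp
      ring

end Pool.Agent.W391.LS.SiteSmooth


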